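import Pool.Agent.H547.CcfFin

set_option autoImplicit false

/-!
# `∑ (-27)^{-j} C(2j,j)² C(3j,j)` modulo `p²`

The elliptic curve `y² = x³ + (6A-27)x + (A²-18A+54)`, `A = 2 + 2√5`, has complex multiplication by the ring of
integers of `ℚ(√-15)` and explicit isogenies of degrees `3` and `5` (multipliers `√-3`, `√5`) to its conjugate. A
combination of them of degree `p` lifts the Frobenius over the Witt vectors of an algebraic closure of `ZMod p`, which
gives the sum modulo `p²`; if `p` is inert in `ℚ(√-15)` then the Hasse invariant vanishes.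
-/

open Finset

namespace Pool.Agent.Results.MP_ccf7f2_nt.QOneMinusTwentySeven

/-- the sum `S_p = ∑_{j<p} (-27)^{-j} C(2j,j)² C(3j,j)` -/
def S (p : ℕ) : ℚ :=
  ∑ j ∈ range p, ((-27 : ℚ) ^ j)⁻¹ * (((2 * j).choose j : ℚ) ^ 2 * ((3 * j).choose j : ℚ))

/-- congruence modulo `p²` of rational numbers: `(a - b) / p²` has denominator prime to `p` -/
def Cong (p : ℕ) (a b : ℚ) : Prop := p.Coprime ((a - b) / (p : ℚ) ^ 2).den

theorem jac15 : ∀ r : ℕ, r < 15 → (jacobiSym (r : ℤ) 15 = -1 → r = 7 ∨ r = 11 ∨ r = 13 ∨ r = 14) := by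
  intro r hr
  interval_cases r <;> norm_num

theorem result (p : ℕ) (hp : p.Prime) (h3 : 3 < p) :
    ((p % 15 = 1 ∨ p % 15 = 4) → ∀ x y : ℤ, (p : ℤ) = x ^ 2 + 15 * y ^ 2 →
      Cong p (S p) (4 * (x : ℚ) ^ 2 - 2 * p)) ∧
    ((p % 15 = 2 ∨ p % 15 = 8) → ∀ x y : ℤ, (p : ℤ) = 5 * x ^ 2 + 3 * y ^ 2 →
      Cong p (S p) (20 * (x : ℚ) ^ 2 - 2 * p)) ∧
    (jacobiSym p 15 = -1 → Cong p (S p) 0) := by
  have : Fact p.Prime := ⟨hp⟩
  rcases eq_or_ne p 5 with rfl | hp5
  · refine ⟨fun h => by omega, fun h => by omega, fun h => ?_⟩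
    exfalso
    norm_num at h
  have h5 : 5 < p := by
    rcases Nat.lt_or_ge 5 p with h | h
    · exact h
    · exfalso
      have h4 : p = 4 := by omega
      rw [h4] at hp
      exact absurd hp (by norm_num)
  have hM : ¬ (p : ℤ) ∣ -27 := by
    rw [dvd_neg]
    have := Pool.Agent.H546.ndvd_of_primes p (n := 27) (l := [3, 3, 3]) (by simp; norm_num)
      (by norm_num) (by simp; omega)
    exact_mod_cast this
  obtain ⟨wi, hwi⟩ := Pool.Agent.H546.inv_exists hM
  have e : S p = ∑ k ∈ range p, (((2 * k).choose k : ℚ) ^ 2 * ((3 * k).choose k : ℚ)) / ((-27 : ℤ) : ℚ) ^ k := by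
    unfold S
    refine sum_congr rfl fun k _ => ?_
    push_cast
    rw [div_eq_mul_inv, mul_comm]
  have tr : ∀ E : ℤ, ∑ k ∈ range p, (k.centralBinom : ZMod (p ^ 2)) *
      ((Pool.Agent.Q267.MW.u3 k : ℕ) : ZMod (p ^ 2)) * wi ^ k = ((E : ℤ) : ZMod (p ^ 2)) →
      Cong p (S p) (E : ℚ) := by
    intro E hE
    unfold Cong
    rw [e]
    exact Pool.Agent.H546.tr3 hM hwi E hE
  obtain ⟨h1, h2, h4⟩ := Pool.Agent.H547.ccf_main p h5 hwi
  refine ⟨fun hc x y hxy => ?_, fun hc x y hxy => ?_, fun hc => ?_⟩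
  · have := tr _ (h1 x y hc hxy)
    push_cast at this
    exact this
  · have := tr _ (h2 x y hc hxy)
    push_cast at this
    exact this
  · have hj : jacobiSym ((p % 15 : ℕ) : ℤ) 15 = -1 := by
      rw [← hc, jacobiSym.mod_left (p : ℤ) 15]
      push_cast
      rfl
    have hr := jac15 (p % 15) (Nat.mod_lt _ (by norm_num)) hj
    have := tr 0 (by rw [h4 hr]; push_cast; rfl)
    push_cast at this
    exact this

end Pool.Agent.Results.MP_ccf7f2_nt.QOneMinusTwentySeven
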